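import Mathlib

/-!
# One-ND rule normal form for propagating programmed grammars
-/

set_option autoImplicit false

namespace Pool.Agent.Results.MP_67c3d0_lc.OneNDNormalForm

open scoped Classical

/-- A programmed grammar (without appearance checking) with terminal alphabet `T`: nonterminals
`N`, labels `Ψ`, a start symbol, and for each label `r` the rule `lhs r → rhs r` with the success
field `succ r`. -/
structure PG (T : Type) where
  N : Type
  Ψ : Type
  [finN : Fintype N]
  [finΨ : Fintype Ψ]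
  start : N
  lhs : Ψ → N
  rhs : Ψ → List (N ⊕ T)
  succ : Ψ → Finset Ψ

attribute [instance] PG.finN PG.finΨ

variable {T : Type}

/-- `(u, r) ⇒ (v, q)` if `u = u₁ A u₂`, `v = u₁ x u₂` and `q ∈ σ_r`, where `r : A → x`. -/
def PG.Step (G : PG T) (c d : List (G.N ⊕ T) × G.Ψ) : Prop :=
  d.2 ∈ G.succ c.2 ∧ ∃ u₁ u₂, c.1 = u₁ ++ .inl (G.lhs c.2) :: u₂ ∧ d.1 = u₁ ++ G.rhs c.2 ++ u₂

/-- `(u, r)` is reached from `(S, p)` for some `p`. -/
def PG.Reach (G : PG T) (c : List (G.N ⊕ T) × G.Ψ) : Prop :=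
  ∃ p, Relation.ReflTransGen G.Step ([.inl G.start], p) c

/-- the generated language -/
def PG.lang (G : PG T) : Language T := {w | ∃ q, G.Reach (w.map .inr, q)}

/-- no rule is erasing -/
def PG.Propagating (G : PG T) : Prop := ∀ r, G.rhs r ≠ []

/-- one-ND rule normal form: at most one rule has more than one successor -/
def PG.OneND (G : PG T) : Prop :=
  ∀ r r', 2 ≤ (G.succ r).card → 2 ≤ (G.succ r').card → r = r'

/-- the nonterminals of the new grammar -/
inductive NN (N T Ψ : Type) where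
  | S
  | C
  | info (Z Y : N ⊕ T) (r : Ψ)
  | old (A : N)
  deriving Fintype

/-- the labels of the new grammar -/
inductive LL (N T Ψ : Type) where
  | c
  | sA (Z Y : N ⊕ T) (r q : Ψ)
  | sB (r : Ψ)
  | s1 (Z Y : N ⊕ T) (r q : Ψ)
  | s2 (Z Y : N ⊕ T) (r q : Ψ)
  | f1 (Z Y : N ⊕ T) (r : Ψ)
  | f2 (Y : N ⊕ T)
  | st (r q : Ψ)
  | w1 (a : T)
  deriving Fintype

/-- the old symbols among the new ones -/
def emb {N T : Type} (Ψ : Type) : N ⊕ T → NN N T Ψ ⊕ T
  | .inl A => .inl (.old A)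
  | .inr a => .inr a

section New

variable (G : PG T)

/-- the left-hand sides of the new rules -/
def nlhs : LL G.N T G.Ψ → NN G.N T G.Ψ
  | .c => .C
  | .sA Z Y r _ => .info Z Y r
  | .sB r => .old (G.lhs r)
  | .s1 Z Y r _ => .info Z Y r
  | .s2 Z Y r _ => .info Z Y r
  | .f1 Z Y r => .info Z Y r
  | .f2 _ => .C
  | .st _ _ => .S
  | .w1 _ => .S

/-- the right-hand side of the rules that simulate a rule on the first symbol -/
def rhs1 (Z : G.N ⊕ T) (q : G.Ψ) : List (G.N ⊕ T) → List (NN G.N T G.Ψ ⊕ T)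
  | [] => [.inl .C]
  | [y] => [.inl (.info Z y q)]
  | y :: y' :: l => .inl (.info y' y q) :: (l.map (emb G.Ψ) ++ [emb G.Ψ Z])

/-- the right-hand side of the rules that simulate a rule on the second symbol -/
def rhs2 (Y : G.N ⊕ T) (q : G.Ψ) : List (G.N ⊕ T) → List (NN G.N T G.Ψ ⊕ T)
  | [] => [.inl .C]
  | y :: l => .inl (.info y Y q) :: l.map (emb G.Ψ)

/-- the right-hand side of the start rules -/
def rhs0 (q : G.Ψ) : List (G.N ⊕ T) → List (NN G.N T G.Ψ ⊕ T)
  | y :: y' :: l => .inl .C :: .inl (.info y' y q) :: l.map (emb G.Ψ)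
  | _ => [.inl .C]

/-- the right-hand sides of the new rules; the rules for the erasing rules of `G` are replaced -/
def nrhs : LL G.N T G.Ψ → List (NN G.N T G.Ψ ⊕ T)
  | .c => [.inl .C]
  | .sA Z Y _ q => [.inl (.info Z Y q)]
  | .sB r => (G.rhs r).map (emb G.Ψ)
  | .s1 Z _ r q => rhs1 G Z q (G.rhs r)
  | .s2 _ Y r q => rhs2 G Y q (G.rhs r)
  | .f1 Z _ _ => [emb G.Ψ Z]
  | .f2 Y => [emb G.Ψ Y]
  | .st r q => rhs0 G q (G.rhs r)
  | .w1 a => [.inr a]

/-- the labels that may follow the central rule -/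
def isS {N T Ψ : Type} : LL N T Ψ → Prop
  | .sA _ _ _ _ => True
  | .s1 _ _ _ _ => True
  | .s2 _ _ _ _ => True
  | .f1 _ _ _ => True
  | _ => False

/-- the success fields -/
noncomputable def nsucc [Fintype T] : LL G.N T G.Ψ → Finset (LL G.N T G.Ψ)
  | .c => Finset.univ.filter isS
  | .sA _ _ r q => if q ∈ G.succ r then {.sB r} else ∅
  | .sB _ => {.c}
  | .s1 _ Y r q => if q ∈ G.succ r ∧ Y = .inl (G.lhs r) then {.c} else ∅
  | .s2 Z _ r q => if q ∈ G.succ r ∧ Z = .inl (G.lhs r) then {.c} else ∅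
  | .f1 _ Y _ => {.f2 Y}
  | .f2 Y => {.f2 Y}
  | .st r q => if q ∈ G.succ r ∧ G.Reach ([.inl (G.lhs r)], r) ∧ 2 ≤ (G.rhs r).length
      then {.c} else ∅
  | .w1 a => if [a] ∈ G.lang then {.w1 a} else ∅

/-- the new grammar -/
noncomputable def new [Fintype T] : PG T where
  N := NN G.N T G.Ψ
  Ψ := LL G.N T G.Ψ
  start := .S
  lhs := nlhs G
  rhs := nrhs G
  succ := nsucc G

theorem new_oneND [Fintype T] : (new G).OneND := by
  have h1 : ∀ l : LL G.N T G.Ψ, l ≠ .c → (nsucc G l).card ≤ 1 := by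
    intro l hl
    cases l with
    | c => exact absurd rfl hl
    | sA Z Y r q => rw [nsucc]; split_ifs <;> simp
    | sB r => simp [nsucc]
    | s1 Z Y r q => rw [nsucc]; split_ifs <;> simp
    | s2 Z Y r q => rw [nsucc]; split_ifs <;> simp
    | f1 Z Y r => simp [nsucc]
    | f2 Y => simp [nsucc]
    | st r q => rw [nsucc]; split_ifs <;> simp
    | w1 a => rw [nsucc]; split_ifs <;> simp
  have h2 : ∀ l : LL G.N T G.Ψ, 2 ≤ (nsucc G l).card → l = .c := by
    intro l hl
    by_contra hne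
    have := h1 l hne
    omega
  intro r r' hr hr'
  exact (h2 r hr).trans (h2 r' hr').symm

theorem new_propagating [Fintype T] (hG : G.Propagating) : (new G).Propagating := by
  intro l
  change nrhs G l ≠ []
  cases l with
  | c => simp [nrhs]
  | sA Z Y r q => simp [nrhs]
  | sB r => simp [nrhs, hG r]
  | s1 Z Y r q =>
    rw [nrhs]
    rcases G.rhs r with _ | ⟨y, _ | ⟨y', l⟩⟩ <;> simp [rhs1]
  | s2 Z Y r q =>
    rw [nrhs]
    rcases G.rhs r with _ | ⟨y, l⟩ <;> simp [rhs2]
  | f1 Z Y r => simp [nrhs]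
  | f2 Y => simp [nrhs]
  | st r q =>
    rw [nrhs]
    rcases G.rhs r with _ | ⟨y, _ | ⟨y', l⟩⟩ <;> simp [rhs0]
  | w1 a => simp [nrhs]

/-- the steps of the new grammar -/
def St [Fintype T] (c d : List (NN G.N T G.Ψ ⊕ T) × LL G.N T G.Ψ) : Prop :=
  d.2 ∈ nsucc G c.2 ∧ ∃ u₁ u₂, c.1 = u₁ ++ .inl (nlhs G c.2) :: u₂ ∧ d.1 = u₁ ++ nrhs G c.2 ++ u₂

/-- reachable configurations of the new grammar -/
def NR [Fintype T] (c : List (NN G.N T G.Ψ ⊕ T) × LL G.N T G.Ψ) : Prop :=
  ∃ p, Relation.ReflTransGen (St G) ([.inl .S], p) c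

variable {G}

theorem NR.step [Fintype T] {c d : List (NN G.N T G.Ψ ⊕ T) × LL G.N T G.Ψ} (h : NR G c)
    (hs : St G c d) : NR G d := by
  obtain ⟨p, hp⟩ := h
  exact ⟨p, hp.tail hs⟩

theorem PG.Reach.step {c d : List (G.N ⊕ T) × G.Ψ} (h : G.Reach c) (hs : G.Step c d) :
    G.Reach d := by
  obtain ⟨p, hp⟩ := h
  exact ⟨p, hp.tail hs⟩

/-- the new configuration that represents the sentential form `Y Z β` with the label `r` -/
def cf (G : PG T) (Y Z : G.N ⊕ T) (β : List (G.N ⊕ T)) (r : G.Ψ) (l : LL G.N T G.Ψ) :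
    List (NN G.N T G.Ψ ⊕ T) × LL G.N T G.Ψ :=
  (.inl .C :: .inl (.info Z Y r) :: β.map (emb G.Ψ), l)

theorem central [Fintype T] {Y Z : G.N ⊕ T} {β : List (G.N ⊕ T)} {r : G.Ψ} {l : LL G.N T G.Ψ}
    (hl : isS l) (h : NR G (cf G Y Z β r .c)) : NR G (cf G Y Z β r l) := by
  refine h.step ⟨?_, [], _, rfl, rfl⟩
  change l ∈ Finset.univ.filter isS
  simp [hl]

theorem complete [Fintype T] (hG : G.Propagating) {c : List (G.N ⊕ T) × G.Ψ}
    (h : G.Reach c) : ∀ Y Z β, c.1 = Y :: Z :: β → NR G (cf G Y Z β c.2 .c) := by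
  obtain ⟨p, hp⟩ := h
  induction hp with
  | refl => intro Y Z β h; simp at h
  | @tail b d hab hbd ih =>
    intro Y' Z' β' hd
    have hreach : G.Reach b := ⟨p, hab⟩
    obtain ⟨b1, r⟩ := b
    obtain ⟨d1, q⟩ := d
    obtain ⟨hq, u1, u2, h1, h2⟩ := hbd
    simp only at hq h1 h2 hd ih ⊢
    subst h2
    rcases u1 with _ | ⟨Y, _ | ⟨Z, u1⟩⟩
    · rw [List.nil_append] at h1 hd
      rcases u2 with _ | ⟨Z, β⟩
      · -- the first long sentential form
        rw [List.append_nil] at hd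
        refine ⟨.st r q, Relation.ReflTransGen.single ⟨?_, [], [], rfl, ?_⟩⟩
        · change _ ∈ nsucc G (.st r q)
          rw [nsucc, if_pos]
          · simp [cf]
          · refine ⟨hq, ?_, by rw [hd]; simp⟩
            rw [h1] at hreach
            exact hreach
        · change _ = [] ++ rhs0 G q (G.rhs r) ++ []
          rw [hd]
          simp [rhs0, cf]
      · -- the first symbol is rewritten
        have h3 := central (l := .s1 Z (.inl (G.lhs r)) r q) trivial (ih _ _ _ h1)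
        refine h3.step ⟨?_, [.inl .C], β.map (emb G.Ψ), rfl, ?_⟩
        · change _ ∈ nsucc G (.s1 _ _ _ _)
          rw [nsucc, if_pos ⟨hq, rfl⟩]
          simp [cf]
        · change _ = [.inl .C] ++ rhs1 G Z q (G.rhs r) ++ _
          rcases hr : G.rhs r with _ | ⟨y, _ | ⟨y', l⟩⟩
          · exact absurd hr (hG r)
          · rw [hr] at hd
            simp only [List.cons_append, List.nil_append, List.cons.injEq] at hd
            obtain ⟨rfl, rfl, rfl⟩ := hd
            simp [rhs1, cf]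
          · rw [hr] at hd
            simp only [List.cons_append, List.cons.injEq] at hd
            obtain ⟨rfl, rfl, rfl⟩ := hd
            simp [rhs1, cf]
    · -- the second symbol is rewritten
      have h3 := central (l := .s2 (.inl (G.lhs r)) Y r q) trivial (ih _ _ _ h1)
      refine h3.step ⟨?_, [.inl .C], u2.map (emb G.Ψ), rfl, ?_⟩
      · change _ ∈ nsucc G (.s2 _ _ _ _)
        rw [nsucc, if_pos ⟨hq, rfl⟩]
        simp [cf]
      · change _ = [.inl .C] ++ rhs2 G Y q (G.rhs r) ++ _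
        rcases hr : G.rhs r with _ | ⟨y, l⟩
        · exact absurd hr (hG r)
        · rw [hr] at hd
          simp only [List.cons_append, List.nil_append, List.cons.injEq] at hd
          obtain ⟨rfl, rfl, rfl⟩ := hd
          simp [rhs2, cf]
    · -- another symbol is rewritten
      simp only [List.cons_append, List.cons.injEq] at hd
      obtain ⟨rfl, rfl, rfl⟩ := hd
      have h3 := central (l := .sA Z Y r q) trivial (ih _ _ _ h1)
      have h4 : NR G (cf G Y Z (u1 ++ .inl (G.lhs r) :: u2) q (.sB r)) := by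
        refine h3.step ⟨?_, [.inl .C], (u1 ++ .inl (G.lhs r) :: u2).map (emb G.Ψ), rfl, rfl⟩
        change _ ∈ nsucc G (.sA _ _ _ _)
        rw [nsucc, if_pos hq]
        simp [cf]
      refine h4.step ⟨?_, .inl .C :: .inl (.info Z Y q) :: u1.map (emb G.Ψ),
        u2.map (emb G.Ψ), ?_, ?_⟩
      · change _ ∈ nsucc G (.sB r)
        rw [nsucc]
        simp [cf]
      · simp [cf, nlhs, emb]
      · simp [cf, nrhs]

/-- the configurations of the new grammar that may occur -/
inductive Inv [Fintype T] (G : PG T) : List (NN G.N T G.Ψ ⊕ T) × LL G.N T G.Ψ → Prop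
  | i0 (l : LL G.N T G.Ψ) : Inv G ([.inl .S], l)
  | i1 {Y Z : G.N ⊕ T} {β : List (G.N ⊕ T)} {r : G.Ψ} {l : LL G.N T G.Ψ}
      (hr : G.Reach (Y :: Z :: β, r)) (hl : isS l ∨ l = .c) : Inv G (cf G Y Z β r l)
  | i2 {Y Z : G.N ⊕ T} {β : List (G.N ⊕ T)} {r q : G.Ψ} (hr : G.Reach (Y :: Z :: β, r))
      (hq : q ∈ G.succ r) : Inv G (cf G Y Z β q (.sB r))
  | i3 {Y Z : G.N ⊕ T} {β : List (G.N ⊕ T)} {r : G.Ψ} (hr : G.Reach (Y :: Z :: β, r)) :
      Inv G (.inl .C :: emb G.Ψ Z :: β.map (emb G.Ψ), .f2 Y)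
  | i4 {Y Z : G.N ⊕ T} {β : List (G.N ⊕ T)} {r : G.Ψ} (hr : G.Reach (Y :: Z :: β, r)) :
      Inv G ((Y :: Z :: β).map (emb G.Ψ), .f2 Y)
  | i5 {a : T} (ha : [a] ∈ G.lang) : Inv G ([.inr a], .w1 a)

theorem split3 {X : Type} {a b x : X} {l u1 u2 : List X} (h : a :: b :: l = u1 ++ x :: u2) :
    (u1 = [] ∧ x = a ∧ u2 = b :: l) ∨ (u1 = [a] ∧ x = b ∧ u2 = l) ∨
      ∃ v, u1 = a :: b :: v ∧ l = v ++ x :: u2 := by
  rcases u1 with _ | ⟨c, _ | ⟨d, v⟩⟩
  · simp only [List.nil_append, List.cons.injEq] at h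
    exact Or.inl ⟨rfl, h.1.symm, h.2.symm⟩
  · simp only [List.cons_append, List.nil_append, List.cons.injEq] at h
    exact Or.inr (Or.inl ⟨by rw [h.1], h.2.1.symm, h.2.2.symm⟩)
  · simp only [List.cons_append, List.cons.injEq] at h
    exact Or.inr (Or.inr ⟨v, by rw [h.1, h.2.1], h.2.2⟩)

theorem not_mem_emb {N Ψ : Type} {β : List (N ⊕ T)} {v u : List (NN N T Ψ ⊕ T)} {X : NN N T Ψ}
    (h : β.map (emb Ψ) = v ++ .inl X :: u) : ∃ A, X = .old A := by
  have h1 : (Sum.inl X : NN N T Ψ ⊕ T) ∈ β.map (emb Ψ) := by rw [h]; simp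
  obtain ⟨y, _, hy⟩ := List.mem_map.1 h1
  rcases y with A | a
  · exact ⟨A, (Sum.inl.inj hy).symm⟩
  · simp [emb] at hy

theorem emb_injective {N Ψ : Type} : Function.Injective (emb Ψ : N ⊕ T → NN N T Ψ ⊕ T) := by
  intro x y h
  rcases x with x | x <;> rcases y with y | y <;> simp [emb] at h <;> rw [h]

theorem inv_step [Fintype T] (hG : G.Propagating) {c d : List (NN G.N T G.Ψ ⊕ T) × LL G.N T G.Ψ} (h : Inv G c)
    (hs : St G c d) : Inv G d := by
  obtain ⟨d1, l'⟩ := d
  obtain ⟨hl', u1, u2, h1, h2⟩ := hs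
  simp only at h2
  subst h2
  cases h with
  | i0 l =>
    simp only at h1 hl' ⊢
    have h3 : u1 = [] ∧ u2 = [] ∧ nlhs G l = .S := by
      rcases u1 with _ | ⟨x, u1⟩
      · simp only [List.nil_append, List.cons.injEq] at h1
        exact ⟨rfl, h1.2.symm, (Sum.inl.inj h1.1).symm⟩
      · simp at h1
    obtain ⟨rfl, rfl, h4⟩ := h3
    cases l with
    | st r q =>
      rw [nsucc] at hl'
      split_ifs at hl' with h5
      · rw [Finset.mem_singleton] at hl'
        subst hl'
        obtain ⟨h6, h7, h8⟩ := h5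
        rcases hr : G.rhs r with _ | ⟨y, _ | ⟨y', l⟩⟩
        · rw [hr] at h8; simp at h8
        · rw [hr] at h8; simp at h8
        · have h9 : G.Reach (y :: y' :: l, q) := by
            refine h7.step ⟨h6, [], [], rfl, ?_⟩
            simp [hr]
          have h10 := Inv.i1 (G := G) (l := .c) h9 (Or.inr rfl)
          simpa [nrhs, rhs0, hr, cf] using h10
      · simp at hl'
    | w1 a =>
      rw [nsucc] at hl'
      split_ifs at hl' with h5
      · rw [Finset.mem_singleton] at hl'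
        subst hl'
        exact .i5 h5
      · simp at hl'
    | _ => simp [nlhs] at h4
  | @i1 Y Z β r l hr hl =>
    simp only [cf] at h1 hl' ⊢
    rcases split3 h1 with ⟨rfl, h3, rfl⟩ | ⟨rfl, h3, rfl⟩ | ⟨v, rfl, h3⟩
    · -- the central rule
      have h4 := Sum.inl.inj h3
      cases l with
      | c =>
        refine .i1 hr (Or.inl ?_)
        rw [nsucc, Finset.mem_filter] at hl'
        exact hl'.2
      | f2 Y' => simp [isS] at hl
      | _ => simp [nlhs] at h4
    · have h4 := Sum.inl.inj h3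
      cases l with
      | sA Z' Y' r' q =>
        rw [nlhs, NN.info.injEq] at h4
        obtain ⟨rfl, rfl, rfl⟩ := h4
        rw [nsucc] at hl'
        split_ifs at hl' with h5
        · rw [Finset.mem_singleton] at hl'
          subst hl'
          exact .i2 hr h5
        · simp at hl'
      | s1 Z' Y' r' q =>
        rw [nlhs, NN.info.injEq] at h4
        obtain ⟨rfl, rfl, rfl⟩ := h4
        rw [nsucc] at hl'
        split_ifs at hl' with h5
        · rw [Finset.mem_singleton] at hl'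
          subst hl'
          obtain ⟨h6, rfl⟩ := h5
          have h7 : G.Reach (G.rhs r' ++ Z' :: β, q) :=
            hr.step ⟨h6, [], Z' :: β, rfl, rfl⟩
          rw [nrhs]
          rcases hrr : G.rhs r' with _ | ⟨y, _ | ⟨y', l⟩⟩
          · exact absurd hrr (hG r')
          · rw [hrr] at h7
            exact .i1 h7 (Or.inr rfl)
          · rw [hrr] at h7
            have h8 := Inv.i1 (G := G) (l := .c) h7 (Or.inr rfl)
            simpa [rhs1, cf] using h8
        · simp at hl'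
      | s2 Z' Y' r' q =>
        rw [nlhs, NN.info.injEq] at h4
        obtain ⟨rfl, rfl, rfl⟩ := h4
        rw [nsucc] at hl'
        split_ifs at hl' with h5
        · rw [Finset.mem_singleton] at hl'
          subst hl'
          obtain ⟨h6, rfl⟩ := h5
          have h7 : G.Reach (Y' :: (G.rhs r' ++ β), q) :=
            hr.step ⟨h6, [Y'], β, rfl, rfl⟩
          rw [nrhs]
          rcases hrr : G.rhs r' with _ | ⟨y, l⟩
          · exact absurd hrr (hG r')
          · rw [hrr] at h7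
            have h8 := Inv.i1 (G := G) (l := .c) h7 (Or.inr rfl)
            simpa [rhs2, cf] using h8
        · simp at hl'
      | f1 Z' Y' r' =>
        rw [nlhs, NN.info.injEq] at h4
        obtain ⟨rfl, rfl, rfl⟩ := h4
        rw [nsucc, Finset.mem_singleton] at hl'
        subst hl'
        exact .i3 hr
      | _ => simp [nlhs] at h4
    · obtain ⟨A, hA⟩ := not_mem_emb h3
      cases l with
      | sB r' => simp [isS] at hl
      | _ => simp [nlhs] at hA
  | @i2 Y Z β r q hr hq =>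
    simp only [cf] at h1 hl' ⊢
    rw [nsucc, Finset.mem_singleton] at hl'
    subst hl'
    rcases split3 h1 with ⟨rfl, h3, rfl⟩ | ⟨rfl, h3, rfl⟩ | ⟨v, rfl, h3⟩
    · simp [nlhs] at h3
    · simp [nlhs] at h3
    · obtain ⟨β1, β', rfl, rfl, h4⟩ := List.map_eq_append_iff.1 h3
      obtain ⟨A, β2, rfl, h5, rfl⟩ := List.map_eq_cons_iff.1 h4
      have h6 : A = .inl (G.lhs r) := emb_injective h5
      subst h6
      have h7 : G.Reach (Y :: Z :: (β1 ++ G.rhs r ++ β2), q) :=
        hr.step ⟨hq, Y :: Z :: β1, β2, rfl, by simp⟩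
      have h8 := Inv.i1 (G := G) (l := .c) h7 (Or.inr rfl)
      simpa [nrhs, cf] using h8
  | @i3 Y Z β r hr =>
    simp only at h1 hl' ⊢
    rw [nsucc, Finset.mem_singleton] at hl'
    subst hl'
    rcases u1 with _ | ⟨x, u1⟩
    · simp only [List.nil_append, List.cons.injEq] at h1
      obtain ⟨_, rfl⟩ := h1
      exact .i4 hr
    · exfalso
      simp only [List.cons_append, List.cons.injEq] at h1
      obtain ⟨A, hA⟩ := not_mem_emb (β := Z :: β) h1.2
      simp [nlhs] at hA
  | @i4 Y Z β r hr =>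
    exfalso
    simp only at h1
    obtain ⟨A, hA⟩ := not_mem_emb h1
    simp [nlhs] at hA
  | @i5 a ha =>
    exfalso
    simp only at h1
    rcases u1 with _ | ⟨x, u1⟩ <;> simp at h1

theorem NR.inv [Fintype T] (hG : G.Propagating) {c : List (NN G.N T G.Ψ ⊕ T) × LL G.N T G.Ψ}
    (h : NR G c) : Inv G c := by
  obtain ⟨p, hp⟩ := h
  induction hp with
  | refl => exact .i0 p
  | tail _ hs ih => exact inv_step hG ih hs

theorem reach_ne_nil (hG : G.Propagating) {c : List (G.N ⊕ T) × G.Ψ} (h : G.Reach c) :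
    c.1 ≠ [] := by
  obtain ⟨p, hp⟩ := h
  induction hp with
  | refl => simp
  | tail _ hs _ =>
    obtain ⟨_, u1, u2, _, h2⟩ := hs
    rw [h2]
    intro h3
    simp only [List.append_eq_nil_iff] at h3
    exact hG _ h3.1.2

theorem Inv.final [Fintype T] {c : List (NN G.N T G.Ψ ⊕ T) × LL G.N T G.Ψ} (h : Inv G c)
    {w : List T} (hc : c.1 = w.map .inr) : w ∈ G.lang := by
  have hno : ∀ X : NN G.N T G.Ψ, (Sum.inl X : NN G.N T G.Ψ ⊕ T) ∉ c.1 := by
    intro X hX
    rw [hc] at hX
    simp at hX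
  cases h with
  | i0 l => exact absurd (by simp) (hno .S)
  | i1 hr hl => exact absurd (by simp [cf]) (hno .C)
  | i2 hr hq => exact absurd (by simp [cf]) (hno .C)
  | i3 hr => exact absurd (by simp) (hno .C)
  | @i4 Y Z β r hr =>
    refine ⟨r, ?_⟩
    have h2 : (w.map Sum.inr : List (G.N ⊕ T)) = Y :: Z :: β := by
      apply List.map_injective_iff.2 (emb_injective (N := G.N) (T := T) (Ψ := G.Ψ))
      refine Eq.trans ?_ hc.symm
      rw [List.map_map]
      rfl
    rw [h2]
    exact hr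
  | @i5 a ha =>
    have h2 : w = [a] := by
      have : (w.map Sum.inr : List (NN G.N T G.Ψ ⊕ T)) = [a].map Sum.inr := by
        rw [← hc]
        rfl
      exact List.map_injective_iff.2 Sum.inr_injective this
    rw [h2]
    exact ha

theorem new_lang [Fintype T] (hG : G.Propagating) : (new G).lang = G.lang := by
  ext w
  constructor
  · rintro ⟨l, h⟩
    exact Inv.final (NR.inv hG h) rfl
  · rintro ⟨q, h⟩
    rcases w with _ | ⟨a, _ | ⟨b, w⟩⟩
    · exact absurd rfl (reach_ne_nil hG h)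
    · refine ⟨.w1 a, .w1 a, Relation.ReflTransGen.single ⟨?_, [], [], rfl, rfl⟩⟩
      change _ ∈ nsucc G (.w1 a)
      rw [nsucc, if_pos ⟨q, h⟩]
      simp
    · have h1 := complete hG h _ _ _ rfl
      have h2 := central (l := .f1 (.inr b) (.inr a) q) trivial h1
      have h3 : NR G (.inl .C :: emb G.Ψ (.inr b) :: (w.map Sum.inr).map (emb G.Ψ),
          .f2 (.inr a)) := by
        refine h2.step ⟨?_, [.inl .C], (w.map Sum.inr).map (emb G.Ψ), rfl, rfl⟩
        change _ ∈ nsucc G (.f1 _ _ _)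
        rw [nsucc, Finset.mem_singleton]
      have h4 : NR G (emb G.Ψ (.inr a) :: emb G.Ψ (.inr b) :: (w.map Sum.inr).map (emb G.Ψ),
          .f2 (.inr a)) := by
        refine h3.step ⟨?_, [], _, rfl, rfl⟩
        change _ ∈ nsucc G (.f2 _)
        rw [nsucc, Finset.mem_singleton]
      refine ⟨.f2 (.inr a), ?_⟩
      change NR G ((a :: b :: w).map Sum.inr, .f2 (.inr a))
      have h5 : ((a :: b :: w).map Sum.inr : List (NN G.N T G.Ψ ⊕ T)) =
          emb G.Ψ (.inr a) :: emb G.Ψ (.inr b) :: (w.map Sum.inr).map (emb G.Ψ) := by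
        rw [List.map_map]
        rfl
      rw [h5]
      exact h4

end New

/-- **Every propagating programmed grammar has an equivalent propagating programmed grammar in
one-ND rule normal form** (for every finite terminal alphabet `T`). -/
theorem result (T : Type) [Fintype T] (G : PG T) (hG : G.Propagating) :
    ∃ G' : PG T, G'.Propagating ∧ G'.OneND ∧ G'.lang = G.lang :=
  ⟨new G, new_propagating G hG, new_oneND G, new_lang hG⟩

end Pool.Agent.Results.MP_67c3d0_lc.OneNDNormalForm
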